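import Pool.Agent.W31.SN.Defs

/-!
# Apartments satisfy the relations and are cycles (`Task6`)
-/

set_option autoImplicit false

namespace Pool.Agent.W762.SN

open Pool.Agent.W31.SN Finset

section lists

variable {α : Type}

lemma getD_app (l t : List α) (j : ℕ) (d : α) : (l ++ t).getD (l.length + j) d = t.getD j d := by
  induction l with
  | nil => simp
  | cons a l ih =>
    have : (a :: l).length + j = (l.length + j) + 1 := by simp; omega
    rw [this]
    simpa using ih

lemma erase_app (l t : List α) (j : ℕ) :
    (l ++ t).eraseIdx (l.length + j) = l ++ t.eraseIdx j := by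
  induction l with
  | nil => simp
  | cons a l ih =>
    have : (a :: l).length + j = (l.length + j) + 1 := by simp; omega
    rw [this]
    simp [ih]

lemma getD_app_lt (l t : List α) (d : α) : ∀ i, i < l.length → (l ++ t).getD i d = l.getD i d := by
  induction l with
  | nil => intro i hi; simp at hi
  | cons a l ih =>
    intro i hi
    cases i with
    | zero => rfl
    | succ i =>
      have := ih i (by simpa using hi)
      simpa using this

lemma erase_app_lt (l t : List α) :
    ∀ i, i < l.length → (l ++ t).eraseIdx i = l.eraseIdx i ++ t := by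
  induction l with
  | nil => intro i hi; simp at hi
  | cons a l ih =>
    intro i hi
    cases i with
    | zero => rfl
    | succ i =>
      have := ih i (by simpa using hi)
      simp [this]

lemma len_erase (l : List α) (i : ℕ) (hi : i < l.length) :
    (l.eraseIdx i).length + 1 = l.length := by
  rw [List.length_eraseIdx_of_lt hi]
  omega

lemma dbl_getD1 (l : List α) (d : α) : ∀ a b, a ≤ b → b + 1 < l.length →
    (l.eraseIdx a).getD b d = l.getD (b + 1) d := by
  induction l with
  | nil => intro a b _ hb; simp at hb
  | cons x l ih =>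
    intro a b hab hb
    cases a with
    | zero => rfl
    | succ a =>
      cases b with
      | zero => omega
      | succ b =>
        have := ih a b (by omega) (by simpa using hb)
        simpa using this

lemma dbl_getD2 (l : List α) (d : α) : ∀ a b, a ≤ b → b + 1 < l.length →
    (l.eraseIdx (b + 1)).getD a d = l.getD a d := by
  induction l with
  | nil => intro a b _ hb; simp at hb
  | cons x l ih =>
    intro a b hab hb
    cases a with
    | zero => rfl
    | succ a =>
      cases b with
      | zero => omega
      | succ b =>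
        have := ih a b (by omega) (by simpa using hb)
        simpa using this

lemma dbl_erase (l : List α) : ∀ a b, a ≤ b → b + 1 < l.length →
    (l.eraseIdx a).eraseIdx b = (l.eraseIdx (b + 1)).eraseIdx a := by
  induction l with
  | nil => intro a b _ hb; simp at hb
  | cons x l ih =>
    intro a b hab hb
    cases a with
    | zero => rfl
    | succ a =>
      cases b with
      | zero => omega
      | succ b =>
        have := ih a b (by omega) (by simpa using hb)
        simp [this]

lemma forall2_getD {P : α → α → Prop} {l l' : List α} (d : α) (h : List.Forall₂ P l l') :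
    ∀ i, i < l.length → P (l.getD i d) (l'.getD i d) := by
  induction h with
  | nil => intro i hi; simp at hi
  | cons hx _ ih =>
    intro i hi
    cases i with
    | zero => simpa using hx
    | succ i => simpa using ih i (by simpa using hi)

lemma forall2_erase {P : α → α → Prop} {l l' : List α} (h : List.Forall₂ P l l') :
    ∀ i, List.Forall₂ P (l.eraseIdx i) (l'.eraseIdx i) := by
  induction h with
  | nil => intro i; simp
  | cons hx hl ih =>
    intro i
    cases i with
    | zero => simpa using hl
    | succ i => simpa using ⟨hx, ih i⟩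

lemma mem_getD_or (l : List α) (d : α) : ∀ i, i < l.length → ∀ x ∈ l,
    x = l.getD i d ∨ x ∈ l.eraseIdx i := by
  induction l with
  | nil => intro i hi; simp at hi
  | cons a l ih =>
    intro i hi x hx
    cases i with
    | zero =>
      rcases List.mem_cons.1 hx with h | h
      · left; simpa using h
      · right; simpa using h
    | succ i =>
      rcases List.mem_cons.1 hx with h | h
      · right; simp [h]
      · rcases ih i (by simpa using hi) x h with h' | h'
        · left; simpa using h'
        · right; simp [h']

end lists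

section geo

variable {K V : Type} [Field K] [AddCommGroup V] [Module K V]

/-- one term of the recursion -/
noncomputable def tm (n : ℕ) (W : Submodule K V) (l : List V) (i : ℕ) :
    List (Submodule K V) →₀ ℤ :=
  (-1 : ℤ) ^ i • Finsupp.mapDomain (List.cons (W ⊔ Submodule.span K {l.getD i 0}))
        (aptN n (W ⊔ Submodule.span K {l.getD i 0}) (l.eraseIdx i))

lemma aptN_succ (n : ℕ) (W : Submodule K V) (l : List V) :
    aptN (n + 1) W l = ∑ i ∈ range (n + 1), tm n W l i := rfl

lemma sup_span_eq {W : Submodule K V} {x x' : V} (h : ∃ a : K, a ≠ 0 ∧ x' - a • x ∈ W) :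
    W ⊔ Submodule.span K {x} = W ⊔ Submodule.span K {x'} := by
  obtain ⟨a, ha, hx⟩ := h
  have h1 : ∀ y : V, y ∈ Submodule.span K {y} := fun y => Submodule.mem_span_singleton_self y
  apply le_antisymm
  · refine sup_le le_sup_left ?_
    rw [Submodule.span_singleton_le_iff_mem]
    have e : x = a⁻¹ • (x' - (x' - a • x)) := by
      rw [sub_sub_cancel, smul_smul, inv_mul_cancel₀ ha, one_smul]
    rw [e]
    exact Submodule.smul_mem _ _ (Submodule.sub_mem _ (Submodule.mem_sup_right (h1 x'))
      (Submodule.mem_sup_left hx))
  · refine sup_le le_sup_left ?_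
    rw [Submodule.span_singleton_le_iff_mem]
    have e : x' = (x' - a • x) + a • x := by abel
    rw [e]
    exact Submodule.add_mem _ (Submodule.mem_sup_left hx)
      (Submodule.smul_mem _ _ (Submodule.mem_sup_right (h1 x)))

lemma aptN_congr (n : ℕ) : ∀ (W : Submodule K V) (l l' : List V), l.length = n →
    List.Forall₂ (fun x x' => ∃ a : K, a ≠ 0 ∧ x' - a • x ∈ W) l l' →
    aptN n W l = aptN n W l' := by
  induction n with
  | zero => intro W l l' _ _; rfl
  | succ n ih =>
    intro W l l' hl h
    rw [aptN_succ, aptN_succ]
    refine Finset.sum_congr rfl fun i hi => ?_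
    have hi' : i < l.length := by rw [hl]; exact Finset.mem_range.1 hi
    unfold tm
    have e1 := sup_span_eq (forall2_getD 0 h i hi')
    rw [e1]
    congr 2
    refine ih _ _ _ (by have := len_erase l i hi'; omega) ?_
    refine List.Forall₂.imp ?_ (forall2_erase h i)
    rintro x x' ⟨a, ha, hx⟩
    exact ⟨a, ha, Submodule.mem_sup_left hx⟩

lemma tm_neg {n : ℕ} {W : Submodule K V} {l l' : List V} {i j : ℕ}
    (h1 : l.getD i 0 = l'.getD j 0) (h2 : ∀ U : Submodule K V,
      (-1 : ℤ) ^ i • aptN n U (l.eraseIdx i) = - ((-1 : ℤ) ^ j • aptN n U (l'.eraseIdx j))) :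
    tm n W l i = - tm n W l' j := by
  unfold tm
  rw [h1, ← Finsupp.mapDomain_smul, h2, ← Finsupp.mapDomain_smul]
  exact map_neg (Finsupp.mapDomain.addMonoidHom _) _

lemma aptN_perm (n : ℕ) : ∀ (W : Submodule K V) (l₁ : List V) (x y : V) (l₂ : List V),
    l₁.length + l₂.length + 2 = n →
    aptN n W (l₁ ++ y :: x :: l₂) = - aptN n W (l₁ ++ x :: y :: l₂) := by
  induction n with
  | zero => intro W l₁ x y l₂ h; omega
  | succ n ih =>
    intro W l₁ x y l₂ h
    rw [aptN_succ, aptN_succ, ← Finset.sum_neg_distrib]
    set k := l₁.length with hk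
    refine Finset.sum_nbij' (Equiv.swap k (k + 1)) (Equiv.swap k (k + 1)) ?_ ?_ ?_ ?_ ?_
    · intro i hi
      rw [Finset.mem_range] at hi ⊢
      rcases lt_trichotomy i k with hik | hik | hik
      · rw [Equiv.swap_apply_of_ne_of_ne (by omega) (by omega)]; exact hi
      · rw [hik, Equiv.swap_apply_left]; omega
      · by_cases h' : i = k + 1
        · rw [h', Equiv.swap_apply_right]; omega
        · rw [Equiv.swap_apply_of_ne_of_ne (by omega) h']; exact hi
    · intro i hi
      rw [Finset.mem_range] at hi ⊢
      rcases lt_trichotomy i k with hik | hik | hik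
      · rw [Equiv.swap_apply_of_ne_of_ne (by omega) (by omega)]; exact hi
      · rw [hik, Equiv.swap_apply_left]; omega
      · by_cases h' : i = k + 1
        · rw [h', Equiv.swap_apply_right]; omega
        · rw [Equiv.swap_apply_of_ne_of_ne (by omega) h']; exact hi
    · intro i _
      exact Equiv.swap_apply_self k (k + 1) i
    · intro i _
      exact Equiv.swap_apply_self k (k + 1) i
    · intro i hi
      rw [Finset.mem_range] at hi
      rcases lt_trichotomy i k with hik | hik | hik
      · rw [Equiv.swap_apply_of_ne_of_ne (by omega) (by omega)]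
        refine tm_neg ?_ fun U => ?_
        · rw [getD_app_lt _ _ _ _ hik, getD_app_lt _ _ _ _ hik]
        · rw [erase_app_lt _ _ _ hik, erase_app_lt _ _ _ hik, ih U _ x y l₂ (by
            have := len_erase l₁ i hik; omega), smul_neg]
      · rw [hik, Equiv.swap_apply_left]
        have e1 := getD_app l₁ (y :: x :: l₂) 0 0
        have e2 := getD_app l₁ (x :: y :: l₂) 1 0
        have e3 := erase_app l₁ (y :: x :: l₂) 0
        have e4 := erase_app l₁ (x :: y :: l₂) 1
        rw [← hk] at e1 e2 e3 e4
        rw [add_zero] at e1 e3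
        refine tm_neg ?_ fun U => ?_
        · rw [e1, e2]; rfl
        · rw [e3, e4, pow_succ]
          simp
      · by_cases h' : i = k + 1
        · rw [h', Equiv.swap_apply_right]
          have e1 := getD_app l₁ (y :: x :: l₂) 1 0
          have e2 := getD_app l₁ (x :: y :: l₂) 0 0
          have e3 := erase_app l₁ (y :: x :: l₂) 1
          have e4 := erase_app l₁ (x :: y :: l₂) 0
          rw [← hk] at e1 e2 e3 e4
          rw [add_zero] at e2 e4
          refine tm_neg ?_ fun U => ?_
          · rw [e1, e2]; rfl
          · rw [e3, e4, pow_succ]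
            simp
        · rw [Equiv.swap_apply_of_ne_of_ne (by omega) h']
          obtain ⟨j, rfl⟩ : ∃ j, i = k + (j + 2) := ⟨i - k - 2, by omega⟩
          have e1 := getD_app l₁ (y :: x :: l₂) (j + 2) 0
          have e2 := getD_app l₁ (x :: y :: l₂) (j + 2) 0
          have e3 := erase_app l₁ (y :: x :: l₂) (j + 2)
          have e4 := erase_app l₁ (x :: y :: l₂) (j + 2)
          rw [← hk] at e1 e2 e3 e4
          refine tm_neg ?_ fun U => ?_
          · rw [e1, e2]; rfl
          · rw [e3, e4]
            have := ih U l₁ x y (l₂.eraseIdx j) (by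
              have := len_erase l₂ j (by omega); omega)
            simp only [List.eraseIdx_cons_succ]
            rw [this, smul_neg]

lemma forall2_head {W : Submodule K V} {x x' : V} (l : List V)
    (h : ∃ a : K, a ≠ 0 ∧ x' - a • x ∈ W) :
    List.Forall₂ (fun x x' => ∃ a : K, a ≠ 0 ∧ x' - a • x ∈ W) (x :: l) (x' :: l) := by
  refine List.Forall₂.cons h ?_
  refine List.forall₂_same.2 fun y _ => ⟨1, one_ne_zero, ?_⟩
  rw [one_smul, sub_self]
  exact Submodule.zero_mem _

lemma tm_zero (n : ℕ) (W : Submodule K V) (x : V) (l : List V) :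
    tm n W (x :: l) 0 = Finsupp.mapDomain (List.cons (W ⊔ Submodule.span K {x}))
      (aptN n (W ⊔ Submodule.span K {x}) l) := by
  simp [tm]

lemma tm_one (n : ℕ) (W : Submodule K V) (x y : V) (l : List V) :
    tm n W (x :: y :: l) 1 = - Finsupp.mapDomain (List.cons (W ⊔ Submodule.span K {y}))
      (aptN n (W ⊔ Submodule.span K {y}) (x :: l)) := by
  simp [tm]

lemma tm_comb {n : ℕ} {W : Submodule K V} {a b c : List V} {i : ℕ}
    (h1 : a.getD i 0 = b.getD i 0) (h2 : a.getD i 0 = c.getD i 0)
    (h : ∀ U : Submodule K V, aptN n U (a.eraseIdx i) - aptN n U (b.eraseIdx i) +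
      aptN n U (c.eraseIdx i) = 0) :
    tm n W a i - tm n W b i + tm n W c i = 0 := by
  unfold tm
  rw [← h1, ← h2, ← smul_sub, ← smul_add]
  have h3 := h (W ⊔ Submodule.span K {a.getD i 0})
  have h4 := congrArg (Finsupp.mapDomain.addMonoidHom
    (List.cons (W ⊔ Submodule.span K {a.getD i 0})) : _ → (List (Submodule K V) →₀ ℤ)) h3
  rw [map_add, map_sub, map_zero] at h4
  have h5 : ∀ z : List (Submodule K V) →₀ ℤ, Finsupp.mapDomain.addMonoidHom
    (List.cons (W ⊔ Submodule.span K {a.getD i 0})) z = Finsupp.mapDomain
    (List.cons (W ⊔ Submodule.span K {a.getD i 0})) z := fun _ => rfl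
  simp only [h5] at h4
  rw [h4, smul_zero]

lemma aptN_add (n : ℕ) : ∀ (W : Submodule K V) (x y : V) (l : List V), l.length = n →
    aptN (n + 2) W (x :: y :: l) - aptN (n + 2) W ((x + y) :: y :: l) +
      aptN (n + 2) W ((x + y) :: x :: l) = 0 := by
  induction n with
  | zero =>
    intro W x y l hl
    have hl' : l = [] := List.length_eq_zero_iff.1 hl
    subst hl'
    have hsp : ∀ U : Submodule K V, ∀ a : V, a ∈ U ⊔ Submodule.span K {a} := fun U a =>
      Submodule.mem_sup_right (Submodule.mem_span_singleton_self a)
    have c1 : aptN 1 (W ⊔ Submodule.span K {x}) [y] =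
        aptN 1 (W ⊔ Submodule.span K {x}) [x + y] :=
      aptN_congr 1 _ _ _ rfl (forall2_head _ ⟨1, one_ne_zero, by
        rw [one_smul, add_sub_cancel_right]; exact hsp W x⟩)
    have c2 : aptN 1 (W ⊔ Submodule.span K {y}) [x] =
        aptN 1 (W ⊔ Submodule.span K {y}) [x + y] :=
      aptN_congr 1 _ _ _ rfl (forall2_head _ ⟨1, one_ne_zero, by
        rw [one_smul, add_sub_cancel_left]; exact hsp W y⟩)
    have c3 : aptN 1 (W ⊔ Submodule.span K {x + y}) [x] =
        aptN 1 (W ⊔ Submodule.span K {x + y}) [y] :=
      aptN_congr 1 _ _ _ rfl (forall2_head _ ⟨-1, by simp, by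
        have : y - (-1 : K) • x = x + y := by
          rw [neg_smul, one_smul, sub_neg_eq_add, add_comm]
        rw [this]
        exact hsp W _⟩)
    simp only [zero_add, aptN_succ 1, Finset.sum_range_succ, Finset.sum_range_zero, tm_zero,
      tm_one, c1, c2, c3]
    abel
  | succ n ih =>
    intro W x y l hl
    have hsp : ∀ U : Submodule K V, ∀ a : V, a ∈ U ⊔ Submodule.span K {a} := fun U a =>
      Submodule.mem_sup_right (Submodule.mem_span_singleton_self a)
    have c1 : aptN (n + 2) (W ⊔ Submodule.span K {x}) (y :: l) =
        aptN (n + 2) (W ⊔ Submodule.span K {x}) ((x + y) :: l) :=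
      aptN_congr _ _ _ _ (by simp [hl]) (forall2_head _ ⟨1, one_ne_zero, by
        rw [one_smul, add_sub_cancel_right]; exact hsp W x⟩)
    have c2 : aptN (n + 2) (W ⊔ Submodule.span K {y}) (x :: l) =
        aptN (n + 2) (W ⊔ Submodule.span K {y}) ((x + y) :: l) :=
      aptN_congr _ _ _ _ (by simp [hl]) (forall2_head _ ⟨1, one_ne_zero, by
        rw [one_smul, add_sub_cancel_left]; exact hsp W y⟩)
    have c3 : aptN (n + 2) (W ⊔ Submodule.span K {x + y}) (x :: l) =
        aptN (n + 2) (W ⊔ Submodule.span K {x + y}) (y :: l) :=
      aptN_congr _ _ _ _ (by simp [hl]) (forall2_head _ ⟨-1, by simp, by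
        have : y - (-1 : K) • x = x + y := by
          rw [neg_smul, one_smul, sub_neg_eq_add, add_comm]
        rw [this]
        exact hsp W _⟩)
    have hsum : ∀ a b : V, aptN (n + 1 + 2) W (a :: b :: l) =
        (∑ i ∈ range (n + 1), tm (n + 2) W (a :: b :: l) (i + 2)) +
          tm (n + 2) W (a :: b :: l) 1 + tm (n + 2) W (a :: b :: l) 0 := by
      intro a b
      rw [aptN_succ, Finset.sum_range_succ', Finset.sum_range_succ']
    rw [hsum, hsum, hsum]
    have hz : (∑ i ∈ range (n + 1), tm (n + 2) W (x :: y :: l) (i + 2)) -
        (∑ i ∈ range (n + 1), tm (n + 2) W ((x + y) :: y :: l) (i + 2)) +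
        (∑ i ∈ range (n + 1), tm (n + 2) W ((x + y) :: x :: l) (i + 2)) = 0 := by
      rw [← Finset.sum_sub_distrib, ← Finset.sum_add_distrib]
      refine Finset.sum_eq_zero fun i hi => ?_
      have hi' : i < l.length := by rw [hl]; exact Finset.mem_range.1 hi
      refine tm_comb rfl rfl fun U => ?_
      simp only [List.eraseIdx_cons_succ]
      exact ih U x y _ (by have := len_erase l i hi'; omega)
    simp only [tm_zero, tm_one, c1, c2, c3]
    generalize (∑ i ∈ range (n + 1), tm (n + 2) W (x :: y :: l) (i + 2)) = A at hz ⊢
    generalize (∑ i ∈ range (n + 1), tm (n + 2) W ((x + y) :: y :: l) (i + 2)) = B at hz ⊢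
    generalize (∑ i ∈ range (n + 1), tm (n + 2) W ((x + y) :: x :: l) (i + 2)) = C at hz ⊢
    rw [← hz]
    abel

lemma finrank_sup_le [FiniteDimensional K V] (W : Submodule K V) (x : V) :
    Module.finrank K (W ⊔ Submodule.span K {x} : Submodule K V) ≤ Module.finrank K W + 1 := by
  have h1 := Submodule.finrank_add_le_finrank_add_finrank W (Submodule.span K {x})
  have h2 : Module.finrank K (Submodule.span K {x}) ≤ 1 := by
    have := finrank_span_le_card (R := K) ({x} : Set V)
    simpa using this
  omega

lemma finrank_le_len [FiniteDimensional K V] (l : List V) : ∀ W : Submodule K V,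
    W ⊔ Submodule.span K {x | x ∈ l} = ⊤ →
    Module.finrank K V ≤ l.length + Module.finrank K W := by
  induction l with
  | nil =>
    intro W h
    simp at h
    rw [h]
    simp
  | cons a l ih =>
    intro W h
    have h1 : (W ⊔ Submodule.span K {a}) ⊔ Submodule.span K {x | x ∈ l} = ⊤ := by
      rw [← h, sup_assoc, ← Submodule.span_union]
      congr 2
      ext z
      simp
    have h2 := ih _ h1
    have h3 := finrank_sup_le W a
    simp only [List.length_cons]
    omega

lemma supp [FiniteDimensional K V] (n : ℕ) : ∀ (W : Submodule K V) (l : List V), l.length = n →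
    W ⊔ Submodule.span K {x | x ∈ l} = ⊤ →
    n + Module.finrank K W = Module.finrank K V → ∀ F ∈ (aptN n W l).support,
    F.length = n ∧ List.IsChain (· < ·) (W :: F) ∧
      (W :: F).getLast (List.cons_ne_nil _ _) = ⊤ := by
  classical
  induction n with
  | zero =>
    intro W l hl hW _ F hF
    have hl' : l = [] := List.length_eq_zero_iff.1 hl
    subst hl'
    have h1 : F = [] := by
      have : aptN 0 W ([] : List V) = Finsupp.single [] 1 := rfl
      rw [this] at hF
      have := Finsupp.support_single_subset hF
      simpa using this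
    subst h1
    simp at hW
    refine ⟨rfl, ?_, ?_⟩
    · simp
    · simpa using hW
  | succ n ih =>
    intro W l hl hW hr F hF
    rw [aptN_succ] at hF
    have h1 := Finsupp.support_finsetSum hF
    rw [Finset.mem_biUnion] at h1
    obtain ⟨i, hi, hFi⟩ := h1
    have hi' : i < l.length := by rw [hl]; exact Finset.mem_range.1 hi
    unfold tm at hFi
    have h2 := Finsupp.mapDomain_support (Finsupp.support_smul hFi)
    rw [Finset.mem_image] at h2
    obtain ⟨G, hG, rfl⟩ := h2
    set U := W ⊔ Submodule.span K {l.getD i 0} with hU
    have hlen : (l.eraseIdx i).length = n := by have := len_erase l i hi'; omega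
    have htop : U ⊔ Submodule.span K {x | x ∈ l.eraseIdx i} = ⊤ := by
      rw [eq_top_iff, ← hW]
      refine sup_le (le_sup_left.trans le_sup_left) ?_
      rw [Submodule.span_le]
      intro x hx
      rcases mem_getD_or l 0 i hi' x hx with h | h
      · rw [h]
        exact Submodule.mem_sup_left (Submodule.mem_sup_right
          (Submodule.mem_span_singleton_self _))
      · exact Submodule.mem_sup_right (Submodule.subset_span h)
    have hf1 := finrank_le_len _ _ htop
    have hf2 := finrank_sup_le W (l.getD i 0)
    rw [← hU] at hf2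
    have hrU : n + Module.finrank K U = Module.finrank K V := by omega
    obtain ⟨g1, g2, g3⟩ := ih U _ hlen htop hrU G hG
    have hlt : W < U := by
      refine lt_of_le_of_ne le_sup_left ?_
      intro h
      rw [← h] at hrU
      omega
    refine ⟨by simp [g1], ?_, ?_⟩
    · exact List.IsChain.cons_cons hlt g2
    · rw [List.getLast_cons (List.cons_ne_nil _ _)]
      exact g3

lemma cyc (n : ℕ) : ∀ (W : Submodule K V) (l : List V), l.length = n → ∀ i, i + 1 < n →
    Finsupp.mapDomain (fun F : List (Submodule K V) => F.eraseIdx i) (aptN n W l) = 0 := by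
  induction n with
  | zero => intro W l _ i hi; omega
  | succ n ih =>
    intro W l hl i hi
    rw [aptN_succ, Finsupp.mapDomain_finsetSum]
    cases i with
    | succ i =>
      refine Finset.sum_eq_zero fun a ha => ?_
      have ha' : a < l.length := by rw [hl]; exact Finset.mem_range.1 ha
      unfold tm
      rw [Finsupp.mapDomain_smul, ← Finsupp.mapDomain_comp]
      have h1 : ((fun F : List (Submodule K V) => F.eraseIdx (i + 1)) ∘
          List.cons (W ⊔ Submodule.span K {l.getD a 0})) =
          (List.cons (W ⊔ Submodule.span K {l.getD a 0})) ∘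
            (fun F : List (Submodule K V) => F.eraseIdx i) := by
        funext F
        rfl
      rw [h1, Finsupp.mapDomain_comp, ih _ _ (by have := len_erase l a ha'; omega) i (by omega),
        Finsupp.mapDomain_zero, smul_zero]
    | zero =>
      obtain ⟨k, rfl⟩ : ∃ k, n = k + 1 := ⟨n - 1, by omega⟩
      have h1 : ∀ a ∈ range (k + 1 + 1),
          Finsupp.mapDomain (fun F : List (Submodule K V) => F.eraseIdx 0) (tm (k + 1) W l a) =
          ∑ b ∈ range (k + 1), (-1 : ℤ) ^ a • tm k (W ⊔ Submodule.span K {l.getD a 0})
            (l.eraseIdx a) b := by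
        intro a _
        conv_lhs => unfold tm
        rw [Finsupp.mapDomain_smul, ← Finsupp.mapDomain_comp]
        have h1 : ((fun F : List (Submodule K V) => F.eraseIdx 0) ∘
          List.cons (W ⊔ Submodule.span K {l.getD a 0})) = id := by
          funext F
          rfl
        rw [h1, Finsupp.mapDomain_id, aptN_succ, Finset.smul_sum]
      rw [Finset.sum_congr rfl h1, ← Finset.sum_product']
      have key : ∀ a b, a ≤ b → b < k + 1 →
          (-1 : ℤ) ^ a • tm k (W ⊔ Submodule.span K {l.getD a 0}) (l.eraseIdx a) b +
          (-1 : ℤ) ^ (b + 1) • tm k (W ⊔ Submodule.span K {l.getD (b + 1) 0})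
            (l.eraseIdx (b + 1)) a = 0 := by
        intro a b hab hb
        unfold tm
        rw [dbl_getD1 l 0 a b hab (by omega), dbl_getD2 l 0 a b hab (by omega),
          dbl_erase l a b hab (by omega), sup_right_comm, smul_smul, smul_smul, ← add_smul]
        have : (-1 : ℤ) ^ a * (-1) ^ b + (-1) ^ (b + 1) * (-1) ^ a = 0 := by ring
        rw [this, zero_smul]
      refine Finset.sum_involution
        (fun (q : ℕ × ℕ) _ => if q.1 ≤ q.2 then (q.2 + 1, q.1) else (q.2, q.1 - 1)) ?_ ?_ ?_ ?_
      · rintro ⟨a, b⟩ hq
        rw [Finset.mem_product, Finset.mem_range, Finset.mem_range] at hq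
        simp only at hq ⊢
        by_cases hab : a ≤ b
        · rw [if_pos hab]
          exact key a b hab hq.2
        · rw [if_neg hab]
          have := key b (a - 1) (by omega) (by omega)
          rw [Nat.sub_add_cancel (by omega : 1 ≤ a)] at this
          rw [add_comm]
          exact this
      · rintro ⟨a, b⟩ hq _ h
        simp only at h
        by_cases hab : a ≤ b
        · rw [if_pos hab] at h
          have := congrArg Prod.fst h
          simp only at this
          omega
        · rw [if_neg hab] at h
          have := congrArg Prod.fst h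
          simp only at this
          omega
      · rintro ⟨a, b⟩ hq
        rw [Finset.mem_product, Finset.mem_range, Finset.mem_range] at hq ⊢
        simp only at hq ⊢
        by_cases hab : a ≤ b
        · rw [if_pos hab]
          simp only
          omega
        · rw [if_neg hab]
          simp only
          omega
      · rintro ⟨a, b⟩ hq
        simp only
        by_cases hab : a ≤ b
        · rw [if_pos hab]
          simp only
          rw [if_neg (by omega)]
          simp
        · rw [if_neg hab]
          simp only
          rw [if_pos (by omega), Nat.sub_add_cancel (by omega : 1 ≤ a)]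

end geo

theorem done : Task6 := by
  intro R K V _ _ _ _ _ _ _ _ _ _ Λ hΛ W
  refine ⟨⟨?_, ?_, ?_, ?_⟩, ?_⟩
  · intro l₁ x y l₂ _
    have h1 : (l₁ ++ y :: x :: l₂).length = (l₁ ++ x :: y :: l₂).length := by simp
    unfold apt
    rw [h1]
    exact aptN_perm _ W l₁ x y l₂ (by simp; omega)
  · intro u x l _
    unfold apt
    refine (aptN_congr _ W (x :: l) ((u : R) • x :: l) rfl (forall2_head l
      ⟨algebraMap R K u, ?_, ?_⟩)).symm
    · have : (u : R) ≠ 0 := u.ne_zero
      rwa [ne_eq, FaithfulSMul.algebraMap_eq_zero_iff]
    · rw [algebraMap_smul, sub_self]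
      exact Submodule.zero_mem _
  · intro h x l _ hW _
    unfold apt
    refine (aptN_congr _ W (x :: l) ((x + h) :: l) rfl (forall2_head l ⟨1, one_ne_zero, ?_⟩)).symm
    rw [one_smul, add_sub_cancel_left]
    exact hW
  · intro x y l _
    exact aptN_add l.length W x y l rfl
  · intro l hl
    obtain ⟨h1, h2, h3⟩ := hl
    refine ⟨supp l.length W l rfl ?_ h3, cyc l.length W l rfl⟩
    rw [eq_top_iff, ← hΛ, Submodule.span_le]
    intro x hx
    have hx' := h2 hx
    obtain ⟨a, ha, b, hb, rfl⟩ := Submodule.mem_sup.1 hx'
    refine Submodule.add_mem _ (Submodule.mem_sup_left ha) (Submodule.mem_sup_right ?_)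
    exact Submodule.span_le_restrictScalars R K _ hb

end Pool.Agent.W762.SN
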